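import Mathlib

/-!
# 3-extremal split graphs with arbitrarily many vertex degrees

Let `C` be a finite set and let `S` be a finite family of nonempty subsets of `C` such that every
element of `C` lies in exactly `l ^ 2` members of `S` and every two elements lie together in
exactly `l` members. The split graph with the clique `C`, the stable set `S` and the adjacency
`c ∼ s ↔ c ∈ s` has the distinct eigenvalues `|C| - 1 + l, l - 1, 0, - l`. Taking all the nonempty
subsets of an `m`-set, and additional singletons, we obtain 3-extremal split graphs with at least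
`m` distinct vertex degrees.
-/

set_option autoImplicit false

open Finset

namespace Pool.Agent.Results.MP_6460d1_co.ManyDegrees

section definitions

variable {V : Type} [Fintype V]

open Classical in
/-- The set of the eigenvalues of the adjacency matrix of `G`. -/
def eigenvalues (G : SimpleGraph V) : Set ℝ :=
  {μ : ℝ | ∃ v : V → ℝ, v ≠ 0 ∧ (G.adjMatrix ℝ).mulVec v = μ • v}

/-- `G` is a split graph: the vertex set is the union of a clique `K` and of a stable set. -/
def IsSplit (G : SimpleGraph V) : Prop :=
  ∃ K : Set V, (∀ u ∈ K, ∀ v ∈ K, u ≠ v → G.Adj u v) ∧ (∀ u ∉ K, ∀ v ∉ K, ¬ G.Adj u v)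

/-- `G` is connected and its diameter is exactly `d`. -/
def HasDiameter (G : SimpleGraph V) (d : ℕ) : Prop :=
  G.Connected ∧ (∀ u v, G.dist u v ≤ d) ∧ ∃ u v, G.dist u v = d

/-- `G` is a 3-extremal split graph: a split graph of diameter exactly `3` whose adjacency matrix
has exactly `4` distinct eigenvalues. -/
def IsThreeExtremalSplit (G : SimpleGraph V) : Prop :=
  IsSplit G ∧ HasDiameter G 3 ∧ (eigenvalues G).ncard = 4

/-- The number `t(G)` of the distinct vertex degrees. -/
noncomputable def numDegrees (G : SimpleGraph V) : ℕ :=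
  (Set.range fun v : V => (G.neighborSet v).ncard).ncard

end definitions

section general

variable {C S : Type} [Fintype C] [Fintype S] [DecidableEq C]

/-- The split graph of an incidence relation. -/
def graph (inc : S → C → Prop) : SimpleGraph (C ⊕ S) where
  Adj
    | .inl c, .inl c' => c ≠ c'
    | .inl c, .inr s => inc s c
    | .inr s, .inl c => inc s c
    | .inr _, .inr _ => False
  symm := ⟨by
    rintro (c | s) (c' | s') h
    · exact Ne.symm h
    · exact h
    · exact h
    · exact h⟩
  loopless := ⟨by
    rintro (c | s) h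
    · exact h rfl
    · exact h⟩

variable (inc : S → C → Prop) [∀ s c, Decidable (inc s c)]

theorem mulVec_inl (v : C ⊕ S → ℝ) (c : C) [DecidableRel (graph inc).Adj] :
    ((graph inc).adjMatrix ℝ).mulVec v (.inl c) =
      (∑ c', v (.inl c')) - v (.inl c) + ∑ s, (if inc s c then v (.inr s) else 0) := by
  simp only [Matrix.mulVec, dotProduct, SimpleGraph.adjMatrix_apply, Fintype.sum_sum_type]
  congr 1
  · rw [eq_sub_iff_add_eq]
    have : v (.inl c) = ∑ c', (if c' = c then v (.inl c') else 0) := by simp
    rw [this, ← Finset.sum_add_distrib]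
    refine Finset.sum_congr rfl fun c' _ => ?_
    by_cases h : c' = c
    · subst h
      simp [graph]
    · have : (graph inc).Adj (.inl c) (.inl c') := fun h' => h h'.symm
      simp [this, h]
  · refine Finset.sum_congr rfl fun s _ => ?_
    by_cases h : inc s c
    · have : (graph inc).Adj (.inl c) (.inr s) := h
      simp [this, h]
    · have : ¬ (graph inc).Adj (.inl c) (.inr s) := h
      simp [this, h]

theorem mulVec_inr (v : C ⊕ S → ℝ) (s : S) [DecidableRel (graph inc).Adj] :
    ((graph inc).adjMatrix ℝ).mulVec v (.inr s) =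
      ∑ c, (if inc s c then v (.inl c) else 0) := by
  simp only [Matrix.mulVec, dotProduct, SimpleGraph.adjMatrix_apply, Fintype.sum_sum_type]
  have h0 : ∑ s', (if (graph inc).Adj (.inr s) (.inr s') then (1 : ℝ) else 0) * v (.inr s') = 0 := by
    refine Finset.sum_eq_zero fun s' _ => ?_
    have : ¬ (graph inc).Adj (.inr s) (.inr s') := fun h => h
    simp [this]
  rw [h0, add_zero]
  refine Finset.sum_congr rfl fun c _ => ?_
  by_cases h : inc s c
  · have : (graph inc).Adj (.inr s) (.inl c) := h
    simp [this, h]
  · have : ¬ (graph inc).Adj (.inr s) (.inl c) := h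
    simp [this, h]

/-- Double counting. -/
theorem double (l : ℝ)
    (h1 : ∀ c, (∑ s, (if inc s c then (1 : ℝ) else 0)) = l ^ 2)
    (h2 : ∀ c c', c ≠ c' → (∑ s, (if inc s c ∧ inc s c' then (1 : ℝ) else 0)) = l)
    (x : C → ℝ) (c : C) :
    ∑ s, (if inc s c then (∑ c', (if inc s c' then x c' else 0)) else 0)
      = (l ^ 2 - l) * x c + l * ∑ c', x c' := by
  have e1 : ∑ s, (if inc s c then (∑ c', (if inc s c' then x c' else 0)) else 0)
      = ∑ s, ∑ c', (if inc s c ∧ inc s c' then (1 : ℝ) else 0) * x c' := by
    refine Finset.sum_congr rfl fun s _ => ?_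
    by_cases h : inc s c
    · simp [h]
    · simp [h]
  rw [e1, Finset.sum_comm]
  have e2 : ∀ c', ∑ s, (if inc s c ∧ inc s c' then (1 : ℝ) else 0) * x c'
      = l * x c' + (if c' = c then (l ^ 2 - l) * x c' else 0) := by
    intro c'
    rw [← Finset.sum_mul]
    by_cases h : c' = c
    · subst h
      simp only [and_self, h1, if_true]
      ring
    · rw [h2 c c' (fun h' => h h'.symm), if_neg h, add_zero]
  rw [Finset.sum_congr rfl fun c' _ => e2 c', Finset.sum_add_distrib, ← Finset.mul_sum]
  simp
  ring

/-- The spectrum. -/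
theorem spectrum_eq [Nontrivial C] (l : ℝ) (hl : 1 < l)
    (h1 : ∀ c, (∑ s, (if inc s c then (1 : ℝ) else 0)) = l ^ 2)
    (h2 : ∀ c c', c ≠ c' → (∑ s, (if inc s c ∧ inc s c' then (1 : ℝ) else 0)) = l)
    (h0 : ∃ y : S → ℝ, y ≠ 0 ∧ ∀ c, (∑ s, (if inc s c then y s else 0)) = 0) :
    eigenvalues (graph inc) = {-l, 0, l - 1, (Fintype.card C : ℝ) - 1 + l} := by
  classical
  have hcard : (2 : ℝ) ≤ Fintype.card C := by
    exact_mod_cast Fintype.one_lt_card (α := C)
  have hl0 : (0 : ℝ) < l := by linarith
  -- a vector built from its clique part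
  have build : ∀ (μ : ℝ) (x : C → ℝ), μ ≠ 0 → x ≠ 0 →
      (∀ c, μ ^ 2 * x c = μ * ((∑ c', x c') - x c) + ((l ^ 2 - l) * x c + l * ∑ c', x c')) →
      μ ∈ eigenvalues (graph inc) := by
    intro μ x hμ hx h
    refine ⟨Sum.elim x (fun s => (∑ c, (if inc s c then x c else 0)) / μ), ?_, ?_⟩
    · intro h'
      apply hx
      funext c
      exact congrFun h' (.inl c)
    · funext w
      rcases w with c | s
      · rw [mulVec_inl]
        simp only [Sum.elim_inl, Sum.elim_inr, Pi.smul_apply, smul_eq_mul]
        have e : ∑ s, (if inc s c then (∑ c', (if inc s c' then x c' else 0)) / μ else 0)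
            = ((l ^ 2 - l) * x c + l * ∑ c', x c') / μ := by
          rw [← double inc l h1 h2 x c, Finset.sum_div]
          refine Finset.sum_congr rfl fun s _ => ?_
          by_cases hs : inc s c
          · simp [hs]
          · simp [hs]
        rw [e]
        field_simp
        linear_combination -(h c)
      · rw [mulVec_inr]
        simp only [Sum.elim_inl, Sum.elim_inr, Pi.smul_apply, smul_eq_mul]
        field_simp
  ext μ
  simp only [Set.mem_insert_iff, Set.mem_singleton_iff]
  constructor
  · rintro ⟨v, hv, hA⟩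
    have ha : ∀ c, (∑ c', v (.inl c')) - v (.inl c) + ∑ s, (if inc s c then v (.inr s) else 0)
        = μ * v (.inl c) := by
      intro c
      rw [← mulVec_inl, hA]; rfl
    have hb : ∀ s, ∑ c, (if inc s c then v (.inl c) else 0) = μ * v (.inr s) := by
      intro s
      rw [← mulVec_inr, hA]; rfl
    set X := ∑ c', v (.inl c') with hX
    have hkey : ∀ c, (μ + l) * ((μ - (l - 1)) * v (.inl c) - X) = 0 := by
      intro c
      have hd := double inc l h1 h2 (fun c => v (.inl c)) c
      have e : ∑ s, (if inc s c then (∑ c', (if inc s c' then v (.inl c') else 0)) else 0)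
          = μ * ∑ s, (if inc s c then v (.inr s) else 0) := by
        rw [Finset.mul_sum]
        refine Finset.sum_congr rfl fun s _ => ?_
        by_cases hs : inc s c
        · rw [if_pos hs, if_pos hs, hb s]
        · simp [hs]
      rw [e] at hd
      have := ha c
      simp only [← hX] at hd
      linear_combination hd - μ * this
    by_cases c1 : μ = -l
    · left; exact c1
    right
    have c1' : μ + l ≠ 0 := fun h => c1 (by linarith)
    have hk2 : ∀ c, (μ - (l - 1)) * v (.inl c) = X := by
      intro c
      have := (mul_eq_zero.1 (hkey c)).resolve_left c1'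
      linarith
    by_cases c2 : μ = l - 1
    · right; left; exact c2
    have c2' : μ - (l - 1) ≠ 0 := fun h => c2 (by linarith)
    by_cases hX0 : X = 0
    · left
      have hx0 : ∀ c, v (.inl c) = 0 := by
        intro c
        have := hk2 c
        rw [hX0] at this
        exact (mul_eq_zero.1 this).resolve_left c2'
      by_contra hμ
      apply hv
      funext w
      rcases w with c | s
      · exact hx0 c
      · have := hb s
        simp only [hx0, ite_self, Finset.sum_const_zero] at this
        exact ((mul_eq_zero.1 this.symm).resolve_left hμ)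
    · right; right
      have hs : ∑ c, (μ - (l - 1)) * v (.inl c) = ∑ _c : C, X :=
        Finset.sum_congr rfl fun c _ => hk2 c
      rw [← Finset.mul_sum, ← hX, Finset.sum_const, Finset.card_univ, nsmul_eq_mul] at hs
      have : μ - (l - 1) = Fintype.card C := mul_right_cancel₀ hX0 hs
      linarith
  · rintro (rfl | rfl | rfl | rfl)
    · refine build _ (fun _ => 1) (by linarith) (fun h => ?_) (fun c => ?_)
      · have := congrFun h (Classical.arbitrary C)
        simp at this
      · simp only [Finset.sum_const, Finset.card_univ, nsmul_eq_mul]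
        ring
    · obtain ⟨y, hy, hy0⟩ := h0
      refine ⟨Sum.elim (fun _ => 0) y, ?_, ?_⟩
      · intro h'
        apply hy
        funext s
        exact congrFun h' (.inr s)
      · funext w
        rcases w with c | s
        · rw [mulVec_inl]
          simp [hy0 c]
        · rw [mulVec_inr]
          simp
    · obtain ⟨a, b, hab⟩ := exists_pair_ne C
      have hsum : ∑ c' : C, ((if c' = a then (1 : ℝ) else 0) - (if c' = b then 1 else 0)) = 0 := by
        rw [Finset.sum_sub_distrib]
        simp
      refine build _ (fun c => (if c = a then (1 : ℝ) else 0) - (if c = b then 1 else 0))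
        (by linarith) (fun h => ?_) (fun c => ?_)
      · have := congrFun h a
        simp [hab] at this
      · rw [hsum]
        ring
    · refine build _ (fun _ => 1) (by linarith) (fun h => ?_) (fun c => ?_)
      · have := congrFun h (Classical.arbitrary C)
        simp at this
      · simp only [Finset.sum_const, Finset.card_univ, nsmul_eq_mul]
        ring

theorem ncard_spectrum [Nontrivial C] (l : ℝ) (hl : 1 < l)
    (h1 : ∀ c, (∑ s, (if inc s c then (1 : ℝ) else 0)) = l ^ 2)
    (h2 : ∀ c c', c ≠ c' → (∑ s, (if inc s c ∧ inc s c' then (1 : ℝ) else 0)) = l)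
    (h0 : ∃ y : S → ℝ, y ≠ 0 ∧ ∀ c, (∑ s, (if inc s c then y s else 0)) = 0) :
    (eigenvalues (graph inc)).ncard = 4 := by
  classical
  rw [spectrum_eq inc l hl h1 h2 h0]
  have hcard : (2 : ℝ) ≤ Fintype.card C := by
    exact_mod_cast Fintype.one_lt_card (α := C)
  have e : ({-l, 0, l - 1, (Fintype.card C : ℝ) - 1 + l} : Set ℝ)
      = (({-l, 0, l - 1, (Fintype.card C : ℝ) - 1 + l} : Finset ℝ) : Set ℝ) := by
    push_cast; rfl
  rw [e, Set.ncard_coe_finset]
  rw [Finset.card_insert_of_notMem, Finset.card_insert_of_notMem, Finset.card_insert_of_notMem,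
    Finset.card_singleton]
  · simp only [Finset.mem_singleton]; intro h; linarith
  · simp only [Finset.mem_insert, Finset.mem_singleton]
    rintro (h | h) <;> linarith
  · simp only [Finset.mem_insert, Finset.mem_singleton]
    rintro (h | h | h) <;> linarith

end general

section diameter

variable {V : Type}

theorem short_walk (G : SimpleGraph V) {u v : V} (p : G.Walk u v) (h : p.length ≤ 2) :
    u = v ∨ G.Adj u v ∨ ∃ w, G.Adj u w ∧ G.Adj w v := by
  cases p with
  | nil => exact Or.inl rfl
  | cons h1 q =>
    cases q with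
    | nil => exact Or.inr (Or.inl h1)
    | cons h2 r =>
      cases r with
      | nil => exact Or.inr (Or.inr ⟨_, h1, h2⟩)
      | cons h3 t =>
        simp only [SimpleGraph.Walk.length_cons] at h
        omega

variable {C S : Type} (inc : S → C → Prop)

theorem isSplit : IsSplit (graph inc) := by
  refine ⟨Set.range Sum.inl, ?_, ?_⟩
  · rintro _ ⟨c, rfl⟩ _ ⟨c', rfl⟩ h
    exact fun h' => h (by rw [h'])
  · rintro (c | s) hu (c' | s') hv
    · exact absurd ⟨c, rfl⟩ hu
    · exact absurd ⟨c, rfl⟩ hu
    · exact absurd ⟨c', rfl⟩ hv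
    · exact fun h => h

theorem diam [Nonempty C] (hne : ∀ s, ∃ c, inc s c)
    (s1 s2 : S) (h12 : ∀ c, ¬ (inc s1 c ∧ inc s2 c)) :
    HasDiameter (graph inc) 3 := by
  have hrep : ∀ w : C ⊕ S, ∃ c : C, w = .inl c ∨ (graph inc).Adj w (.inl c) := by
    rintro (c | s)
    · exact ⟨c, Or.inl rfl⟩
    · obtain ⟨c, hc⟩ := hne s
      exact ⟨c, Or.inr hc⟩
  have hcc : ∀ c c' : C, (Sum.inl c : C ⊕ S) = .inl c' ∨ (graph inc).Adj (.inl c) (.inl c') := by
    intro c c'
    by_cases h : c = c'
    · exact Or.inl (by rw [h])
    · exact Or.inr h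
  have hreach : ∀ u v : C ⊕ S, (u = v ∨ (graph inc).Adj u v) → (graph inc).Reachable u v := by
    rintro u v (rfl | h)
    · exact SimpleGraph.Reachable.refl _
    · exact h.reachable
  have hconn : (graph inc).Connected := by
    have hpre : (graph inc).Preconnected := by
      intro u v
      obtain ⟨c, hc⟩ := hrep u
      obtain ⟨c', hc'⟩ := hrep v
      exact ((hreach _ _ hc).trans (hreach _ _ (hcc c c'))).trans (hreach _ _ hc').symm
    have : Nonempty (C ⊕ S) := ⟨.inl (Classical.arbitrary C)⟩
    exact ⟨hpre⟩
  have hd1 : ∀ u v : C ⊕ S, (u = v ∨ (graph inc).Adj u v) → (graph inc).dist u v ≤ 1 := by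
    rintro u v (rfl | h)
    · simp
    · exact (SimpleGraph.dist_eq_one_iff_adj.2 h).le
  have hle : ∀ u v : C ⊕ S, (graph inc).dist u v ≤ 3 := by
    intro u v
    obtain ⟨c, hc⟩ := hrep u
    obtain ⟨c', hc'⟩ := hrep v
    have t1 := hconn.dist_triangle (u := u) (v := .inl c) (w := v)
    have t2 := hconn.dist_triangle (u := .inl c) (v := .inl c') (w := v)
    have e1 := hd1 _ _ hc
    have e2 := hd1 _ _ (hcc c c')
    have e3 := hd1 _ _ hc'
    rw [SimpleGraph.dist_comm] at e3
    omega
  refine ⟨hconn, hle, .inr s1, .inr s2, le_antisymm (hle _ _) ?_⟩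
  by_contra hlt
  obtain ⟨p, hp⟩ := hconn.exists_walk_length_eq_dist (.inr s1) (.inr s2)
  obtain ⟨c0, hc0⟩ := hne s1
  rcases short_walk (graph inc) p (by omega) with h | h | ⟨w, hw1, hw2⟩
  · have : s1 = s2 := Sum.inr_injective h
    subst this
    exact h12 c0 ⟨hc0, hc0⟩
  · exact h
  · rcases w with c | s
    · exact h12 c ⟨hw1, hw2⟩
    · exact hw1

theorem degree_inr (s : S) :
    ((graph inc).neighborSet (.inr s)).ncard = {c | inc s c}.ncard := by
  have : (graph inc).neighborSet (.inr s) = Sum.inl '' {c | inc s c} := by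
    ext w
    rcases w with c | s'
    · simp [SimpleGraph.neighborSet, graph]
    · simp [SimpleGraph.neighborSet, graph]
  rw [this, Set.ncard_image_of_injective _ Sum.inl_injective]

end diameter

section construction

/-- The index set of the stable set: the nonempty subsets of `Fin m` and `K` additional copies of
every singleton. -/
abbrev Blocks (m K : ℕ) : Type := {s : Finset (Fin m) // s.Nonempty} ⊕ (Fin m × Fin K)

/-- Membership. -/
def Inc (m K : ℕ) : Blocks m K → Fin m → Prop
  | .inl s, c => c ∈ s.1
  | .inr a, c => a.1 = c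

instance (m K : ℕ) (s : Blocks m K) (c : Fin m) : Decidable (Inc m K s c) :=
  match s with
  | .inl s => inferInstanceAs (Decidable (c ∈ s.1))
  | .inr a => inferInstanceAs (Decidable (a.1 = c))

theorem sum_subtype {m : ℕ} (f : Finset (Fin m) → ℝ) (h : f ∅ = 0) :
    ∑ s : {s : Finset (Fin m) // s.Nonempty}, f s.1 = ∑ s : Finset (Fin m), f s := by
  rw [← Fintype.sum_subtype_add_sum_subtype (fun s : Finset (Fin m) => s.Nonempty) f]
  have : ∑ i : {s : Finset (Fin m) // ¬ s.Nonempty}, f i.1 = 0 := by
    refine Finset.sum_eq_zero fun i _ => ?_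
    have := i.2
    rw [Finset.not_nonempty_iff_eq_empty] at this
    rw [this, h]
  rw [this, add_zero]

theorem count_two {m : ℕ} (c c' : Fin m) :
    ∑ s : Finset (Fin m), (if c ∈ s ∧ c' ∈ s then (1 : ℝ) else 0)
      = 2 ^ (m - ({c, c'} : Finset (Fin m)).card) := by
  rw [Finset.sum_boole]
  have : (Finset.univ.filter fun s : Finset (Fin m) => c ∈ s ∧ c' ∈ s)
      = Finset.Icc ({c, c'} : Finset (Fin m)) Finset.univ := by
    ext s
    simp [Finset.insert_subset_iff]
  rw [this, Finset.card_Icc_finset (Finset.subset_univ _)]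
  simp

theorem inc_one (m K : ℕ) (c : Fin m) :
    (∑ s, (if Inc m K s c then (1 : ℝ) else 0)) = 2 ^ (m - 1) + K := by
  rw [Fintype.sum_sum_type]
  congr 1
  · have h := sum_subtype (fun s : Finset (Fin m) => if c ∈ s ∧ c ∈ s then (1 : ℝ) else 0)
      (by simp)
    have h' := count_two c c
    have hc1 : ({c, c} : Finset (Fin m)).card = 1 := by simp
    rw [hc1] at h'
    simp only [and_self] at h h'
    rw [← h', ← h]
    rfl
  · have : ∀ a : Fin m × Fin K, (if Inc m K (.inr a) c then (1 : ℝ) else 0)
        = if a.1 = c then 1 else 0 := fun a => rfl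
    simp only [this]
    rw [Fintype.sum_prod_type]
    have h2 : ∀ a : Fin m, ∑ _j : Fin K, (if a = c then (1 : ℝ) else 0)
        = if a = c then (K : ℝ) else 0 := by
      intro a
      split_ifs <;> simp
    simp only [h2]
    simp

theorem inc_two (m K : ℕ) (c c' : Fin m) (h : c ≠ c') :
    (∑ s, (if Inc m K s c ∧ Inc m K s c' then (1 : ℝ) else 0)) = 2 ^ (m - 2) := by
  rw [Fintype.sum_sum_type]
  have h2 : ∑ a : Fin m × Fin K, (if Inc m K (.inr a) c ∧ Inc m K (.inr a) c' then (1 : ℝ) else 0)
      = 0 := by
    refine Finset.sum_eq_zero fun a _ => ?_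
    rw [if_neg]
    rintro ⟨h1, h2⟩
    exact h (h1.symm.trans h2)
  rw [h2, add_zero]
  have h3 := sum_subtype (fun s : Finset (Fin m) => if c ∈ s ∧ c' ∈ s then (1 : ℝ) else 0)
    (by simp)
  rw [count_two, Finset.card_pair h] at h3
  rw [← h3]
  rfl

theorem exists_kernel (m K : ℕ) (a b : Fin m) (hab : a ≠ b) :
    ∃ y : Blocks m K → ℝ, y ≠ 0 ∧ ∀ c, (∑ s, (if Inc m K s c then y s else 0)) = 0 := by
  refine ⟨Sum.elim (fun s => (if s.1 = {a, b} then (1 : ℝ) else 0) - (if s.1 = {a} then 1 else 0)
    - (if s.1 = {b} then 1 else 0)) (fun _ => 0), ?_, ?_⟩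
  · intro h
    have := congrFun h (.inl ⟨{a, b}, ⟨a, by simp⟩⟩)
    have e1 : ({a, b} : Finset (Fin m)) ≠ {a} := by
      intro h'
      have : b ∈ ({a} : Finset (Fin m)) := by rw [← h']; simp
      exact hab (Finset.mem_singleton.1 this).symm
    have e2 : ({a, b} : Finset (Fin m)) ≠ {b} := by
      intro h'
      have : a ∈ ({b} : Finset (Fin m)) := by rw [← h']; simp
      exact hab (Finset.mem_singleton.1 this)
    simp [e1, e2] at this
  · intro c
    rw [Fintype.sum_sum_type]
    simp only [Sum.elim_inl, Sum.elim_inr, ite_self, Finset.sum_const_zero, add_zero]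
    have h3 := sum_subtype (fun s : Finset (Fin m) => if c ∈ s then
      ((if s = {a, b} then (1 : ℝ) else 0) - (if s = {a} then 1 else 0)
        - (if s = {b} then 1 else 0)) else 0) (by simp)
    have h4 : ∑ s : {s : Finset (Fin m) // s.Nonempty}, (if Inc m K (.inl s) c then
        ((if s.1 = {a, b} then (1 : ℝ) else 0) - (if s.1 = {a} then 1 else 0)
        - (if s.1 = {b} then 1 else 0)) else 0)
        = ∑ s : Finset (Fin m), (if c ∈ s then
      ((if s = {a, b} then (1 : ℝ) else 0) - (if s = {a} then 1 else 0)
        - (if s = {b} then 1 else 0)) else 0) := by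
      rw [← h3]; rfl
    rw [h4]
    have h5 : ∀ s : Finset (Fin m), (if c ∈ s then
      ((if s = {a, b} then (1 : ℝ) else 0) - (if s = {a} then 1 else 0)
        - (if s = {b} then 1 else 0)) else 0)
        = (if s = {a, b} then (if c ∈ ({a, b} : Finset (Fin m)) then (1 : ℝ) else 0) else 0)
          - (if s = {a} then (if c ∈ ({a} : Finset (Fin m)) then (1 : ℝ) else 0) else 0)
          - (if s = {b} then (if c ∈ ({b} : Finset (Fin m)) then (1 : ℝ) else 0) else 0) := by
      intro s
      by_cases hs1 : s = {a, b}
      · subst hs1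
        by_cases hc : c ∈ ({a, b} : Finset (Fin m))
        · by_cases e1 : ({a, b} : Finset (Fin m)) = {a}
          · exfalso
            have : b ∈ ({a} : Finset (Fin m)) := by rw [← e1]; simp
            exact hab (Finset.mem_singleton.1 this).symm
          · by_cases e2 : ({a, b} : Finset (Fin m)) = {b}
            · exfalso
              have : a ∈ ({b} : Finset (Fin m)) := by rw [← e2]; simp
              exact hab (Finset.mem_singleton.1 this)
            · simp only [hc, e1, e2, if_true, if_false]
        · have e1 : c ∉ ({a} : Finset (Fin m)) := fun h => hc (by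
            rw [Finset.mem_singleton.1 h]; simp)
          have e2 : c ∉ ({b} : Finset (Fin m)) := fun h => hc (by
            rw [Finset.mem_singleton.1 h]; simp)
          simp only [hc, e1, e2, if_false, ite_self, sub_zero]
      · by_cases hs2 : s = {a}
        · subst hs2
          by_cases e2 : ({a} : Finset (Fin m)) = {b}
          · exact absurd (Finset.singleton_injective e2) hab
          · simp only [hs1, e2, if_true, if_false]
            split_ifs <;> simp
        · by_cases hs3 : s = {b}
          · subst hs3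
            simp only [hs1, hs2, if_true, if_false]
            split_ifs <;> simp
          · simp only [hs1, hs2, hs3, if_false, ite_self, sub_zero]
    rw [Finset.sum_congr rfl fun s _ => h5 s]
    rw [Finset.sum_sub_distrib, Finset.sum_sub_distrib]
    simp only [Finset.sum_ite_eq', Finset.mem_univ, if_true]
    by_cases hca : c = a
    · subst hca
      simp [hab]
    · by_cases hcb : c = b
      · subst hcb
        simp [hca]
      · simp [hca, hcb]

end construction

/-- For every `k` there is a 3-extremal split graph with more than `k` distinct vertex degrees.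
Hence there is no constant as in Q1, and the bound `3` of Q2 is false. -/
theorem result :
    (∀ k : ℕ, ∃ (V : Type) (_ : Fintype V) (G : SimpleGraph V),
      IsThreeExtremalSplit G ∧ k < numDegrees G) ∧
    (¬ ∃ c : ℕ, ∀ (V : Type) [Fintype V] (G : SimpleGraph V),
      IsThreeExtremalSplit G → numDegrees G ≤ c) ∧
    ¬ (∀ (V : Type) [Fintype V] (G : SimpleGraph V),
      IsThreeExtremalSplit G → numDegrees G ≤ 3) := by
  have main : ∀ k : ℕ, ∃ (V : Type) (_ : Fintype V) (G : SimpleGraph V),
      IsThreeExtremalSplit G ∧ k < numDegrees G := by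
    intro p
    set m := p + 3 with hm
    set K := 2 ^ (2 * p + 2) - 2 ^ (p + 2) with hK
    have hKle : 2 ^ (p + 2) ≤ 2 ^ (2 * p + 2) := Nat.pow_le_pow_right (by norm_num) (by omega)
    have hKr : (K : ℝ) = 2 ^ (2 * p + 2) - 2 ^ (p + 2) := by
      rw [hK, Nat.cast_sub hKle]; push_cast; rfl
    let a : Fin m := ⟨0, by omega⟩
    let b : Fin m := ⟨1, by omega⟩
    have hab : a ≠ b := by
      intro h
      have := congrArg Fin.val h
      simp [a, b] at this
    have : Nontrivial (Fin m) := ⟨a, b, hab⟩
    refine ⟨Fin m ⊕ Blocks m K, inferInstance, graph (Inc m K), ⟨isSplit _, ?_, ?_⟩, ?_⟩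
    · refine diam (Inc m K) ?_ (.inl ⟨{a}, ⟨a, by simp⟩⟩) (.inl ⟨{b}, ⟨b, by simp⟩⟩) ?_
      · rintro (s | s)
        · exact s.2
        · exact ⟨s.1, rfl⟩
      · rintro c ⟨h1, h2⟩
        have e1 : c = a := Finset.mem_singleton.1 h1
        have e2 : c = b := Finset.mem_singleton.1 h2
        exact hab (e1.symm.trans e2)
    · refine ncard_spectrum (Inc m K) (2 ^ (p + 1)) (one_lt_pow₀ (by norm_num) (by omega)) ?_ ?_
        (exists_kernel m K a b hab)
      · intro c
        rw [inc_one, hKr, hm, show p + 3 - 1 = p + 2 by omega, ← pow_mul]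
        rw [show (p + 1) * 2 = 2 * p + 2 by ring]
        ring
      · intro c c' h
        rw [inc_two m K c c' h, hm, show p + 3 - 2 = p + 1 by omega]
    · have hsub : ((Finset.Icc 1 m : Finset ℕ) : Set ℕ) ⊆
          Set.range fun v : Fin m ⊕ Blocks m K => ((graph (Inc m K)).neighborSet v).ncard := by
        intro k hk
        rw [Finset.mem_coe, Finset.mem_Icc] at hk
        obtain ⟨t, _, ht⟩ := Finset.exists_subset_card_eq
          (s := (Finset.univ : Finset (Fin m))) (n := k) (by simpa using hk.2)
        refine ⟨.inr (.inl ⟨t, Finset.card_pos.1 (by omega)⟩), ?_⟩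
        simp only
        rw [degree_inr]
        have : {c | Inc m K (.inl ⟨t, Finset.card_pos.1 (by omega)⟩) c} = (t : Set (Fin m)) := by
          ext c; exact Iff.rfl
        rw [this, Set.ncard_coe_finset, ht]
      have hcard := Set.ncard_le_ncard hsub (Set.finite_range _)
      rw [Set.ncard_coe_finset, Nat.card_Icc] at hcard
      unfold numDegrees
      omega
  refine ⟨main, ?_, ?_⟩
  · rintro ⟨c, hc⟩
    obtain ⟨V, hV, G, hG, hlt⟩ := main c
    exact absurd (hc V G hG) (by omega)
  · intro hc
    obtain ⟨V, hV, G, hG, hlt⟩ := main 3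
    exact absurd (hc V G hG) (by omega)

end Pool.Agent.Results.MP_6460d1_co.ManyDegrees
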